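import Pool.Agent.helper34.MO.SpecB

/-!
# Project MO (MP_0631c5_co), row RPF
-/

set_option autoImplicit false

open Complex Finset

noncomputable section

namespace Pool.Agent.MO

theorem RPF_root (la lb : Bool) (l : WT) (h : ReqL la lb l) (x : ℝ) (hx : rootL l = some x) : 0 < x := by
  cases l with
  | e => simp [rootL] at hx
  | nd o l r =>
    cases o with
    | none => simp [rootL] at hx
    | some a =>
      simp only [rootL, Option.some.injEq] at hx
      simp only [ReqL] at h
      rw [← hx]
      exact h.1

theorem RPF_main (hNODE : NODE_stmt) (hNODV : NODV_stmt) (hDELN : DELN_stmt) (lt : WT) :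
    ∀ t : WT, PosW t → Dom lt t →
      (ReqL true true lt → C2 lt t) ∧ (ReqL true false lt → C1a t) ∧ (ReqL false true lt → C1b t) ∧
        (ReqL false false lt → C0 t) := by
  induction lt with
  | e =>
    intro t ht hd
    cases t with
    | nd o l r => simp [Dom] at hd
    | e =>
      refine ⟨?_, ?_, ?_, ?_⟩
      · intro _ s hs
        have h := hs.2.1 0 0 le_rfl le_rfl
        unfold tot
        simp only [bd]
        simpa using h
      · intro _ f A hA hg
        have h := hg 0 le_rfl
        simp only [bd]
        simpa using h
      · intro _ f A hA hg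
        have h := hg 0 le_rfl
        simp only [bd]
        simpa using h
      · intro _
        unfold C0
        simp only [bd]
        exact le_rfl
  | nd o l r ihl ihr =>
    intro t ht hd
    cases o with
    | none =>
      cases t with
      | e => simp [Dom] at hd
      | nd o' l' r' =>
        cases o' with
        | some T => simp [Dom] at hd
        | none =>
          simp only [Dom] at hd
          simp only [PosW] at ht
          obtain ⟨hl2, hl1a, hl1b, hl0⟩ := ihl l' ht.1 hd.1
          obtain ⟨hr2, hr1a, hr1b, hr0⟩ := ihr r' ht.2 hd.2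
          obtain ⟨k1, k2, k3, k4⟩ := hDELN l r l' r' ht.1 ht.2
          simp only [ReqL]
          exact ⟨fun h => k1 (hl1a h.1) (hr1b h.2), fun h => k2 (hl1a h.1) (hr0 h.2),
            fun h => k3 (hl0 h.1) (hr1b h.2), fun h => k4 (hl0 h.1) (hr0 h.2)⟩
    | some a =>
      cases t with
      | e => simp [Dom] at hd
      | nd o' l' r' =>
        cases o' with
        | none => simp [Dom] at hd
        | some T =>
          simp only [Dom] at hd
          simp only [PosW] at ht
          obtain ⟨hl2, hl1a, hl1b, hl0⟩ := ihl l' ht.2.1 hd.2.1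
          obtain ⟨hr2, hr1a, hr1b, hr0⟩ := ihr r' ht.2.2 hd.2.2
          refine ⟨?_, ?_, ?_, ?_⟩
          · intro h
            have h' := h
            simp only [ReqL] at h'
            intro s hs
            exact hNODE l r l' r' a T ht.2.1 ht.2.2 hd.1 h
              (fun x hx => RPF_root true true l h'.2.2.1 x hx)
              (hl2 h'.2.2.1) (hr2 h'.2.2.2.1) s hs
          · intro h
            simp only [ReqL] at h
            exact (hNODV l r l' r' T ht.2.1 ht.2.2 ht.1
              (fun x hx => RPF_root _ _ l h.2.2.1 x hx)
              (fun x hx => RPF_root _ _ r h.2.2.2.1 x hx)).1 (hl2 h.2.2.1) (hr1a h.2.2.2.1)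
          · intro h
            simp only [ReqL] at h
            exact (hNODV l r l' r' T ht.2.1 ht.2.2 ht.1
              (fun x hx => RPF_root _ _ l h.2.2.1 x hx)
              (fun x hx => RPF_root _ _ r h.2.2.2.1 x hx)).2.1 (hl1b h.2.2.1) (hr2 h.2.2.2.1)
          · intro h
            simp only [ReqL] at h
            exact (hNODV l r l' r' T ht.2.1 ht.2.2 ht.1
              (fun x hx => RPF_root _ _ l h.2.2.1 x hx)
              (fun x hx => RPF_root _ _ r h.2.2.2.1 x hx)).2.2 (hl1b h.2.2.1) (hr1a h.2.2.2.1)

theorem RPF_good (x : ℝ) (hx : 0 < x) : Good1 0 (x : ℂ) := by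
  intro p hp
  have e : ((x : ℂ) + (p : ℂ)) = ((x + p : ℝ) : ℂ) := by push_cast; ring
  rw [e, Complex.arg_ofReal_of_nonneg (by linarith), add_zero]

theorem RPF (hA2P : A2P_stmt) (hACT : ACT_stmt) (hNODE : NODE_stmt) (hVA : VA_stmt) (hNODV : NODV_stmt)
    (hDELN : DELN_stmt) (hG2D : G2D_stmt) : RPF_stmt := by
  intro lt t a b ht hd hR ha hb
  obtain ⟨h2, h1a, h1b, h0⟩ := RPF_main hNODE hNODV hDELN lt t ht hd
  cases a with
  | none =>
    cases b with
    | none =>
      have h := h0 hR
      unfold C0 at h
      simpa [phiW] using h
    | some b =>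
      have hb' := hb b rfl
      have h := h1b hR 0 (b : ℂ) (by simpa using hb') (RPF_good b hb')
      simpa [phiW] using h
  | some a =>
    have ha' := ha a rfl
    cases b with
    | none =>
      have h := h1a hR 0 (a : ℂ) (by simpa using ha') (RPF_good a ha')
      simpa [phiW] using h
    | some b =>
      have hb' := hb b rfl
      have hok := (hVA 0 (a : ℂ) b lt (by simpa using ha') (RPF_good a ha') hb'
        (fun x hx => RPF_root _ _ lt hR x hx)).1
      have h := h2 hR _ hok
      unfold tot at h
      have e : (-I + (bd t).mu) = ((bd t).mu - I) := by ring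
      simp only [e, zero_add] at h
      simpa [phiW] using h

end Pool.Agent.MO
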